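import Mathlib
import Pool.Agent.Helper1x.FS.Final

/-!
# Approximative formula size and sparse determinantal representations of the permanent

The bounds `n ^ 4 / (50 log n)` for the formula size and `n ^ 3 / (7 log n)` for the number of
occurrences of variables in a determinantal representation hold also for approximative
computations of the permanent: over `k(ε)` with specialization at `ε = 0`, and for limits over
`ℂ`.
-/

set_option autoImplicit false

namespace Pool.Agent.Results.MP_9ce8c8_lc.BorderFormulaSize

open MvPolynomial Filter Topology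

universe u

/-- arithmetic formulas over `K` in the variables `σ`, with gates `+`, `×`, `÷` of fan-in two and
leaves labelled by variables or by constants of `K` -/
inductive Formula (σ : Type) (K : Type u) : Type u
  | var (v : σ) : Formula σ K
  | const (c : K) : Formula σ K
  | add (F G : Formula σ K) : Formula σ K
  | mul (F G : Formula σ K) : Formula σ K
  | div (F G : Formula σ K) : Formula σ K

/-- the rational function computed by a formula (a quotient by `0` is read as `0`) -/
noncomputable def Formula.value {σ : Type} {K : Type u} [Field K] :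
    Formula σ K → FractionRing (MvPolynomial σ K)
  | .var v => algebraMap (MvPolynomial σ K) (FractionRing (MvPolynomial σ K)) (X v)
  | .const c => algebraMap (MvPolynomial σ K) (FractionRing (MvPolynomial σ K)) (C c)
  | .add F G => F.value + G.value
  | .mul F G => F.value * G.value
  | .div F G => F.value / G.value

/-- the number of leaves labelled by variables -/
def Formula.size {σ : Type} {K : Type u} : Formula σ K → ℕ
  | .var _ => 1
  | .const _ => 0
  | .add F G => F.size + G.size
  | .mul F G => F.size + G.size
  | .div F G => F.size + G.size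

/-- `f` is computed by a formula with at most `s` leaves labelled by variables -/
def HasFormula {σ : Type} {K : Type u} [Field K] (f : MvPolynomial σ K) (s : ℕ) : Prop :=
  ∃ F : Formula σ K, F.value = algebraMap (MvPolynomial σ K) (FractionRing (MvPolynomial σ K)) f ∧
    F.size ≤ s

/-- `f` is the determinant of a square matrix of affine forms with at most `s` occurrences of
variables (pairs of an entry and a variable that occurs in it) -/
def HasDet {σ : Type} {K : Type u} [Field K] (f : MvPolynomial σ K) (s : ℕ) : Prop :=
  ∃ (m : ℕ) (M : Matrix (Fin m) (Fin m) (MvPolynomial σ K)),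
    (∀ i j, (M i j).totalDegree ≤ 1) ∧ M.det = f ∧ ∑ i, ∑ j, (M i j).vars.card ≤ s

/-- the permanent of the generic `n × n` matrix -/
noncomputable def per (n : ℕ) (K : Type u) [Field K] : MvPolynomial (Fin n × Fin n) K :=
  (Matrix.of fun i j : Fin n => (X (i, j) : MvPolynomial (Fin n × Fin n) K)).permanent

/-- all coefficients of `f` are defined at `ε = 0` and `f` specializes there to `g` -/
def SpecializesTo {σ : Type} {k : Type u} [Field k] (f : MvPolynomial σ (RatFunc k))
    (g : MvPolynomial σ k) : Prop :=
  ∀ d, (f.coeff d).denom.eval 0 ≠ 0 ∧ (f.coeff d).eval (RingHom.id k) 0 = g.coeff d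

/-- translation to the library -/
def conv {σ : Type} {K : Type u} : Formula σ K → H1FS.RFml σ K
  | .var v => .var v
  | .const c => .const c
  | .add F G => .add (conv F) (conv G)
  | .mul F G => .mul (conv F) (conv G)
  | .div F G => .div (conv F) (conv G)

lemma conv_val {σ : Type} {K : Type u} [Field K] (F : Formula σ K) :
    (conv F).val = F.value := by
  induction F with
  | var v => rfl
  | const c => rfl
  | add F G hF hG => simp only [conv, H1FS.RFml.val, Formula.value, hF, hG]
  | mul F G hF hG => simp only [conv, H1FS.RFml.val, Formula.value, hF, hG]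
  | div F G hF hG => simp only [conv, H1FS.RFml.val, Formula.value, hF, hG]

lemma conv_size {σ : Type} {K : Type u} (F : Formula σ K) : (conv F).size = F.size := by
  induction F with
  | var v => rfl
  | const c => rfl
  | add F G hF hG => simp only [conv, H1FS.RFml.size, Formula.size, hF, hG]
  | mul F G hF hG => simp only [conv, H1FS.RFml.size, Formula.size, hF, hG]
  | div F G hF hG => simp only [conv, H1FS.RFml.size, Formula.size, hF, hG]

lemma per_eq (n : ℕ) (K : Type u) [Field K] : per n K = H1FS.permN n K := by
  unfold per
  rw [← Matrix.permanent_transpose]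
  rfl

theorem result :
    (∀ (k : Type u) [Field k] [CharZero k] (n s : ℕ)
      (f : MvPolynomial (Fin n × Fin n) (RatFunc k)), 2 ^ 10 ≤ n →
      SpecializesTo f (per n k) →
      (HasFormula f s → (n : ℝ) ^ 4 ≤ 50 * Real.log n * s) ∧
      (HasDet f s → (n : ℝ) ^ 3 ≤ 7 * Real.log n * s)) ∧
    (∀ (n s : ℕ) (f : ℕ → MvPolynomial (Fin n × Fin n) ℂ), 2 ^ 10 ≤ n →
      (∀ d, Tendsto (fun t => (f t).coeff d) atTop (𝓝 ((per n ℂ).coeff d))) →
      ((∀ t, HasFormula (f t) s) → (n : ℝ) ^ 4 ≤ 50 * Real.log n * s) ∧
      ((∀ t, HasDet (f t) s) → (n : ℝ) ^ 3 ≤ 7 * Real.log n * s)) := by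
  refine ⟨fun k _ _ n s f hn hf => ?_, fun n s f hn hf => ?_⟩
  · have hlog : 0 ≤ Real.log n := Real.log_nonneg (by
      have : 1 ≤ n := by omega
      exact_mod_cast this)
    have hf' : ∀ d, (coeff d f).denom.eval 0 ≠ 0 ∧
        (coeff d f).eval (RingHom.id k) 0 = coeff d (H1FS.permN n k) := by
      rw [← per_eq]; exact hf
    obtain ⟨h1, h2⟩ := H1FS.bounds_ratFunc n hn f hf'
    refine ⟨?_, ?_⟩
    · rintro ⟨F, hF, hs⟩
      refine (h1 (conv F) (by rw [conv_val, hF])).trans ?_
      rw [conv_size]
      exact mul_le_mul_of_nonneg_left (by exact_mod_cast hs) (by positivity)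
    · rintro ⟨m, M, hM, hdet, hs⟩
      refine (h2 m M hM hdet).trans ?_
      exact mul_le_mul_of_nonneg_left (by exact_mod_cast hs) (by positivity)
  · rw [per_eq] at hf
    obtain ⟨h1, h2⟩ := H1FS.bounds_limit n hn s f hf
    refine ⟨fun h => h1 (fun t => ?_), fun h => h2 h⟩
    obtain ⟨F, hF, hs⟩ := h t
    exact ⟨conv F, by rw [conv_val, hF], by rw [conv_size]; exact hs⟩

end Pool.Agent.Results.MP_9ce8c8_lc.BorderFormulaSize
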