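import Pool.Agent.H9x.RP.World

/-!
# A world in which `P = PH` and `⊕P = PSPACE`, nearly equal to `P`, and `NP ∪ coNP ≠ PP ≠ PSPACE`

For every monotone unbounded function `α` there is an oracle relative to which every language of the
polynomial hierarchy is in `P`, every language in `PSPACE` is in `⊕P` and in deterministic time
`n ^ O(α n)`, some language in `PP` is not in the polynomial hierarchy, and some language in
`PSPACE` is not in `PP`.
-/

set_option autoImplicit false

namespace Pool.Agent.Parked.BothProper

open Pool.Agent.NPC Pool.Agent.H620R2.Gauge Filter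

open Classical in
/-- The number of the bit strings of length `m` with the property `P`. -/
noncomputable def cnt (m : ℕ) (P : List Bool → Prop) : ℕ :=
  (Finset.univ.filter fun w : Fin m → Bool => P (List.ofFn w)).card

/-- The language `L` is in `PP` relative to `A`: `x` is in `L` if and only if more than half of the
strings `w` of length `p |x|` are accepted, together with `x`, by a polynomial-time algorithm with
the oracle `A`. -/
def IsPP (A : Oracle) (L : Set (List Bool)) : Prop :=
  ∃ (V : List Bool → List Bool) (p : Polynomial ℕ), IsFP A V ∧
    ∀ x, x ∈ L ↔ 2 ^ p.eval x.length < 2 * cnt (p.eval x.length) fun w => V (pairBits w x) = [true]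

/-- The language `L` is in `⊕P` relative to `A`: `x` is in `L` if and only if an odd number of the
strings `w` of length `p |x|` are accepted, together with `x`, by a polynomial-time algorithm with
the oracle `A`. -/
def IsParP (A : Oracle) (L : Set (List Bool)) : Prop :=
  ∃ (V : List Bool → List Bool) (p : Polynomial ℕ), IsFP A V ∧
    ∀ x, x ∈ L ↔ Odd (cnt (p.eval x.length) fun w => V (pairBits w x) = [true])

/-- The language `L` is decided in time `n ^ O(α n)` relative to `A`: the input `x`, together with
`(|x| + 2) ^ (C * (α |x| + 1))` ones, is decided in polynomial time relative to `A`. -/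
def IsTime (α : ℕ → ℕ) (A : Oracle) (L : Set (List Bool)) : Prop :=
  ∃ (C : ℕ) (V : List Bool → List Bool), IsFP A V ∧ ∀ x : List Bool,
    x ∈ L ↔ V (pairBits (List.replicate ((x.length + 2) ^ (C * (α x.length + 1))) true) x) = [true]

theorem result (α : ℕ → ℕ) (hα : Monotone α) (hα' : Tendsto α atTop atTop) :
    ∃ A : Oracle, (∀ L, IsPH A L → IsP A L) ∧
      (∀ L, IsPSPACE A L → IsParP A L ∧ IsTime α A L) ∧
      (∃ L, IsPP A L ∧ ¬ IsPH A L) ∧ ∃ L, IsPSPACE A L ∧ ¬ IsPP A L :=
  Pool.Agent.H9x.RP.world α hα hα'

end Pool.Agent.Parked.BothProper
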