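import Pool.Agent.H5Sym.KSatMain

/-!
# For circuits that are invariant under flips of variables, brute force is optimal

The input is a k-CNF formula with the variables `V`, given by the indicator function of its set of
clauses. Flipping (complementing) variables permutes the formulas and preserves the number of
satisfying assignments.

(1) Let `ε > 0`, and let `k` be sufficiently large. Circuits of any depth with arbitrary symmetric gates
that are invariant under a group `U` of flips of variables (a subspace of the vector space of all
subsets of the variables) and decide the satisfiability of k-CNF formulas need
`2 ^ ((1 - ε) * dim U) / 2 ^ (20 * k)` gates. For the group of all flips this is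
`2 ^ ((1 - ε) * |V|) / 2 ^ (20 * k)`.

(2) The number of satisfying assignments of k-CNF formulas is computed by brute force, by circuits
that are invariant under all flips, with `2 ^ |V| + (2 * |V|) ^ k + 1` gates.

So for the circuits invariant under all flips the analogue of the strong exponential time hypothesis
holds: neither counting nor deciding can be done with `2 ^ ((1 - ε) * |V|)` gates for all `k`.

Proof idea of (1). Formulas which encode linear systems, with `|V| + 1` random rows of length `k`. A gate
with a small orbit depends, by induction on the level, only on few sums of right-hand sides: sums over
small sets of rows whose sum vanishes on the stabiliser of the gate. This needs that no set of rows of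
medium size has this property. A circuit with `s` gates has at most `s` functionals on `U` that vanish on
the stabiliser of some gate, and for a set of medium size, which contains a small constant fraction of the
rows, the sum of the rows is almost uniformly distributed: every value has probability at most
`2 ^ (-(1 - ε / 2) * dim U)`. So the output does not depend on the right-hand side at all.
-/

set_option autoImplicit false

namespace Pool.Agent.Parked.BruteForceOptimal

open Pool.Agent.H5Sym

universe u w

/-- **Theorem.** (1) For every `ε > 0` there is `k₀` such that for all `k ≥ k₀`, all finite sets `V` of
variables and all subspaces `U` of `V → ZMod 2`: let `C` be a circuit with values in any set `D` whose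
gates compute arbitrary functions of the multiset of the labelled values of their wires. If `C` is
invariant under the flips of variables in `U`, and its value determines whether the number of
satisfying assignments of a k-CNF formula with the variables `V` is positive, then
`2 ^ ((1 - ε) * dim U) ≤ 2 ^ (20 * k) * |C|`.
(2) For all `k` and all finite sets `V` of variables there is a circuit with
`2 ^ |V| + (2 * |V|) ^ k + 1` gates that is invariant under all flips of variables and computes the number
of satisfying assignments of all k-CNF formulas with the variables `V`. -/
theorem result :
    (∀ ε : ℝ, 0 < ε → ∃ k₀ : ℕ, ∀ k ≥ k₀, ∀ (V : Type) [Finite V]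
      (U : Submodule (ZMod 2) (V → ZMod 2)) (D : Type u) (C : Circuit.{0, u, w} (KClause k V) D)
      [Finite C.Gate] (inp : Bool → D) (acc : D → Prop), (∀ u ∈ U, C.Invariant (kFlip u)) →
      (∀ x, acc (C.eval (inp ∘ x) C.out) ↔ 0 < kNumSat x) →
      (2 : ℝ) ^ ((1 - ε) * Module.finrank (ZMod 2) U) ≤ 2 ^ (20 * k) * Nat.card C.Gate) ∧
    ∀ (k : ℕ) (V : Type) [Finite V], ∃ C : Circuit.{0, 0, 0} (KClause k V) ℕ,
      Nat.card C.Gate = 2 ^ Nat.card V + (2 * Nat.card V) ^ k + 1 ∧
      (∀ u : V → ZMod 2, C.Invariant (kFlip u)) ∧
      ∀ x : KClause k V → Bool, C.eval (fun t => if x t then 1 else 0) C.out = kNumSat x := by
  refine ⟨fun ε hε => lowerK' ε hε, fun k V _ => ?_⟩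
  have : Fintype V := Fintype.ofFinite V
  exact ⟨kbrute k V, kbrute_card k V, kbrute_inv k V, kbrute_eval k V⟩

end Pool.Agent.Parked.BruteForceOptimal
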