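import Pool.Agent.H20PW.All

/-!
# `M[1]` and `W[1]` relative to random oracles of every density
-/

set_option autoImplicit false

namespace Pool.Agent.Parked.DensityDichotomyDdf912

open MeasureTheory Pool.Agent.NPC Pool.Agent.H620R2.Gauge Pool.Agent.TH678.GC
  Pool.Agent.Y626.WG
open Pool.Agent.Y581.WN (InM1n)
open Pool.Agent.H20RD (rnd)
open Pool.Agent.H20PW (InFPTn)

/-- Let every string of length `n` be in the random oracle `A` with probability `p n`,
independently, where `p` is an arbitrary sequence, and let `S δ` be the sum of the numbers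
`2 ^ n * min (p n) (1 - p n)` over all `n` with `min (p n) (1 - p n) ≤ n ^ (-δ)`.

If `S δ` is infinite for some `δ > 0` then, for every oracle `E` and almost every `A`, relative to
the disjoint union of `A` and `E` the model-checking problem for existential sentences is in `W[1]`
but not in `M[1]`, not even in a wide nonuniform form of `M[1]`.

If `S δ` is finite for all `δ > 0` then there is an oracle `E` such that, for almost every `A`,
relative to the disjoint union of `A` and `E` all problems in `W[1]` are nonuniformly
fixed-parameter tractable, and hence in the nonuniform form of `M[1]`. -/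
theorem result (p : ℕ → unitInterval) :
    ((∃ δ : ℝ, 0 < δ ∧ ¬ Summable fun n : ℕ =>
        if min (p n : ℝ) (1 - p n) ≤ (n : ℝ) ^ (-δ) then (2 : ℝ) ^ n * min (p n : ℝ) (1 - p n)
        else 0) →
      ∀ E : Oracle, ∀ᵐ A ∂(rnd fun x => p x.length),
        InW 1 (join A E) (fun I : WInst 1 => I.1.param) (fun I => I.1.Sat (join A E)) ∧
        ¬ InM1n (join A E) (fun I : WInst 1 => I.1.param) (fun I => I.1.Sat (join A E))) ∧
    ((∀ δ : ℝ, 0 < δ → Summable fun n : ℕ =>
        if min (p n : ℝ) (1 - p n) ≤ (n : ℝ) ^ (-δ) then (2 : ℝ) ^ n * min (p n : ℝ) (1 - p n)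
        else 0) →
      ∃ E : Oracle, ∀ᵐ A ∂(rnd fun x => p x.length), ∀ (α : Type) [TEnc α] (κ : α → ℕ)
        (P : α → Prop), InW 1 (join A E) κ P →
          InFPTn (join A E) κ P ∧ InM1n (join A E) κ P) :=
  Pool.Agent.H20PW.final p

end Pool.Agent.Parked.DensityDichotomyDdf912
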