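import Pool.Agent.Helper1x.EQ.Circ
import Pool.Agent.Helper1x.EQ.Net

/-!
# VP and VP_ws: equivariant determinantal representations and homogeneous circuits

The class `VP_ws` consists of the p-families which have determinantal representations of polynomial size: `f_n` is the
determinant of a matrix of polynomial size whose entries are affine linear forms. Landsberg and Ressayre proved exponential
lower bounds for the size of the determinantal representations of the permanent which are equivariant under a torus. We
prove the analogous lower bounds for tensor networks. For the complete binary trees this is a family in `VP`.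

* `tree K r h 1 0` is the tensor network polynomial of the complete binary tree of height `h` with bond dimension `2 ^ r`,
  and `fam K n` the case `r = h = ⌊log₂ n⌋`. The symmetries are the diagonal gauge transformations `treeGauge t`: the
  variable `x_v(i, j, k)` is multiplied by `t v i / (t (2 v) j * t (2 v + 1) k)`.
* A single gauge transformation `t` which satisfies no short multiplicative relation is enough: a determinantal
  representation which is equivariant under it has size `n ^ Ω(log n)`.
* If each node of a weakly skew circuit computes a polynomial which is homogeneous for the gauge grading, then the circuit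
  gives such a representation. So over every field homogeneous weakly skew circuits have size `n ^ Ω(log n)`, although
  there are homogeneous circuits of size `16 n ^ 5`.
* For every connected graph the least size of an equivariant determinantal representation of the tensor network polynomial
  with bond dimension `q + 1` is between `q ^ w` and `|V| (q + 1) ^ w`, where `w` is the cutwidth of the graph.

Proof of the lower bound. After a translation by a fixed point of the symmetry the determinant becomes `x_ρ` on the line of
an invariant variable `x_ρ`; so the constant part of the matrix has corank one, and the two matrices of the equivalence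
commute with the constant part. This gives a matrix `D` over the field such that each monomial of the determinant has a
factorization in some order of its variables for which the weights of all the partial products are, up to one
factor, eigenvalues of `D`. The weights of a labelling `ℓ` of the edges and a set `U` of vertices determine `ℓ` on the edges
between `U` and its complement, if they are generic, and one of the sets in the order has at least `w` such edges. So `D`
has at least `q ^ w` eigenvalues.
-/

set_option autoImplicit false

namespace Pool.Agent.Results.MP_f18ce0_lc.EquivariantDeterminant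

open Pool.Agent.H20VP Pool.Agent.Helper1x.EQ

/-- The gauge transformation `t` of the tree of height `h` is generic: `t u 0 = 1` for all `u`, and the numbers `t u i` for
the edges `u` (`2 ≤ u < 2 ^ (h + 1)`) and the labels `i ≠ 0` satisfy no multiplicative relation with exponents of absolute
value at most `4`, except the trivial one. -/
def GenericGauge {K : Type} [Field K] {r : ℕ} (h : ℕ) (t : ℕ → Ix r → Kˣ) : Prop :=
  (∀ u, t u 0 = 1) ∧ Generic 4 fun (e : TE h) (i : {i : Ix r // i ≠ 0}) => t e.1 i.1

theorem result :
    -- the family is a p-family and has homogeneous circuits of polynomial size, over every field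
    (∀ (K : Type) [Field K] (n : ℕ), 1 ≤ n → (fam K n).totalDegree ≤ 2 * n ∧ (fam K n).vars.card ≤ 2 * n ^ 4 ∧
      ∃ C : Circuit K (Vr (Nat.log 2 n)), C.FanInTwo ∧ C.size ≤ 16 * n ^ 5 ∧ HomComputes (Nat.log 2 n) C (fam K n)) ∧
    -- every homogeneous weakly skew circuit is large, over every field
    (∀ (K : Type) [Field K] (n : ℕ), 2 ≤ n → ∀ C : Circuit K (Vr (Nat.log 2 n)), C.WeaklySkew →
      HomComputes (Nat.log 2 n) C (fam K n) → (2 ^ Nat.log 2 n - 1) ^ ((Nat.log 2 n + 1) / 2) ≤ C.size) ∧
    -- the gauge transformations are symmetries, and over infinite fields there are generic ones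
    (∀ (K : Type) [Field K] (n : ℕ) (t : ℕ → Ix (Nat.log 2 n) → Kˣ), (∀ u, t u 0 = 1) →
      scale (treeGauge t) (fam K n) = fam K n) ∧
    (∀ (K : Type) [Field K] [Infinite K] (n : ℕ), ∃ t : ℕ → Ix (Nat.log 2 n) → Kˣ, GenericGauge (Nat.log 2 n) t) ∧
    -- every determinantal representation which is equivariant under one generic gauge transformation is large
    (∀ (K : Type) [Field K] (n : ℕ), 2 ≤ n → ∀ t : ℕ → Ix (Nat.log 2 n) → Kˣ, GenericGauge (Nat.log 2 n) t →
      ∀ (m : ℕ) (M : Matrix (Fin m) (Fin m) (MvPolynomial (Vr (Nat.log 2 n)) K)), IsDetRep M (fam K n) →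
        Equivariant (treeGauge t) M → (2 ^ Nat.log 2 n - 1) ^ ((Nat.log 2 n + 1) / 2) + 1 ≤ m) ∧
    -- these bounds are not polynomial
    (∀ c : ℕ, ∃ n, 2 ≤ n ∧ c * n ^ c < (2 ^ Nat.log 2 n - 1) ^ ((Nat.log 2 n + 1) / 2)) ∧
    -- for every connected graph: the lower bound by the cutwidth
    (∀ (K V E : Type) [Field K] [Fintype V] [DecidableEq V] [Fintype E] [DecidableEq E] (src tgt : E → V) (q : ℕ),
      Conn src tgt → 2 ≤ Fintype.card V → 1 ≤ q → ∀ t : E → Fin (q + 1) → Kˣ, (∀ e, t e 0 = 1) →
      Generic 4 (fun e (i : Fin q) => t e i.succ) →
      ∀ (m : ℕ) (M : Matrix (Fin m) (Fin m) (MvPolynomial (V × (E → Fin (q + 1))) K)), IsDetRep M (net K q src tgt) →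
        Equivariant (gauge src tgt t) M → q ^ cutwidth src tgt + 1 ≤ m) ∧
    -- for every graph without loops: the symmetries and the upper bound
    (∀ (K V E : Type) [Field K] [Fintype V] [DecidableEq V] [Fintype E] [DecidableEq E] (src tgt : E → V) (q : ℕ),
      (∀ t : E → Fin (q + 1) → Kˣ, scale (gauge src tgt t) (net K q src tgt) = net K q src tgt) ∧
      ((∀ e, src e ≠ tgt e) → 1 ≤ Fintype.card V → ∃ m ≤ Fintype.card V * (q + 1) ^ cutwidth src tgt,
        ∃ M : Matrix (Fin m) (Fin m) (MvPolynomial (V × (E → Fin (q + 1))) K), IsDetRep M (net K q src tgt) ∧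
          ∀ t : E → Fin (q + 1) → Kˣ, Equivariant (gauge src tgt t) M)) := by
  have hlog : ∀ n, 2 ≤ n → 1 ≤ Nat.log 2 n := fun n hn => Nat.log_pos (by norm_num) hn
  refine ⟨?_, ?_, ?_, ?_, ?_, ?_, ?_, ?_⟩
  · intro K _ n hn
    exact ⟨fam_degree K hn, fam_vars K hn, circ K (Nat.log 2 n) (Nat.log 2 n), circ_fanInTwo K _ _, fam_size K hn,
      circ_hom (Nat.log 2 n)⟩
  · intro K _ n hn C hC hC2
    exact ws_lower (hlog n hn) (hlog n hn) C hC hC2
  · intro K _ n t ht
    have h1 := tree_symm K t ht (Nat.log 2 n) 1 0
    rw [ht, Units.val_one, map_one, one_mul] at h1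
    exact h1
  · intro K _ _ n
    obtain ⟨t, ht⟩ := exists_generic K (TE (Nat.log 2 n)) {i : Ix (Nat.log 2 n) // i ≠ 0} 4
    refine ⟨extOne t, extOne_zero t, ?_⟩
    have h2 : (fun (e : TE (Nat.log 2 n)) (i : {i : Ix (Nat.log 2 n) // i ≠ 0}) => extOne t e.1 i.1) = t := by
      funext e i
      exact extOne_coe t e i
    rw [h2]
    exact ht
  · intro K _ n hn t ht m M hM hEq
    have h1 := tree_lower (hlog n hn) (hlog n hn) t ht.1 ht.2 hM hEq
    rwa [Fintype.card_fin] at h1
  · intro c
    obtain ⟨n, hn, h⟩ := superpoly (c + 1)
    refine ⟨n, ?_, ?_⟩
    · by_contra hcon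
      have h1 : n = 1 := by omega
      rw [h1] at h
      simp at h
    · refine lt_of_le_of_lt ?_ h
      exact Nat.mul_le_mul (by omega) (Nat.pow_le_pow_right hn (by omega))
  · intro K V E _ _ _ _ _ src tgt q hconn hV hq t ht0 hind m M hM hEq
    have h1 := net_lower src tgt hconn hV hq t ht0 hind hM hEq
    rwa [Fintype.card_fin] at h1
  · intro K V E _ _ _ _ _ src tgt q
    exact ⟨fun t => gauge_symm src tgt t, fun h1 h2 => net_upper K q src tgt h1 h2⟩

end Pool.Agent.Results.MP_f18ce0_lc.EquivariantDeterminant
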