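import Pool.Agent.HM94.NI.Poly

/-!
# Small circuits for CLIQUE must negate almost all of their inputs

The NP-complete problem CLIQUE (for graphs, `r = 2`, and for `r`-uniform hypergraphs): the input
consists of the bits `x e` for all sets `e` of `r` vertices among `n` vertices, and the question is
whether some `k` vertices have only edges between them.

Which inputs must be negated by a small circuit? Let `H` be any set of inputs, and consider circuits
in which the inputs of `H` are not negated: NOT gates are only applied to functions that do not depend
on `H`. So all functions of the other inputs may be computed in any way, and for `H = ∅` we have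
arbitrary circuits. Upper and lower bounds:

* If `|H| ≤ C log n`, then this is no loss: the size increases at most by the factor `n ^ C` (and a
  small term). So superpolynomial lower bounds for such `H` are equivalent to superpolynomial lower
  bounds for all circuits.
* If `|H| ≥ (log n) ^ (2 r + ε)`, whatever the set `H` is, then there are superpolynomial lower bounds,
  for all `k` between `(log n) ^ (1 + ε)` and `n - (log n) ^ (2 + ε)`. If `H` contains a sunflower (for
  graphs: a star or a matching), then `(log n) ^ (2 + ε)` members of it are enough.

The lower bounds are for a restriction of the problem: the inputs outside of `H` can be fixed in such a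
way that for the remaining function of the inputs of `H`, circuits of monotone real gates have
exponential size, even if they are randomised and have some further gates (for instance, a few NOT
gates).

The proof: let `H` contain the sunflower `Y ∪ P c` (`c` from some set of labels, the `P c` disjoint). The
labels stand for the inputs of a constraint satisfaction problem for which the clause-by-clause method
of the library gives lower bounds. All edges are present that are not of the form `Y ∪ P c` and do not
contain two vertices of petals with contradictory labels. Then the cliques correspond to the solutions,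
and the remaining inputs are those of `H`.
-/

set_option autoImplicit false

namespace Pool.Agent.Parked.NegatedInputs069684

open Finset

/-- The sets of `r` vertices, where the vertices are `0, ..., n - 1`. -/
abbrev Edge (n r : ℕ) : Type := {e : Finset (Fin n) // e.card = r}

/-- The hypergraph `x` (with the edges `e` such that `x e = true`) has a clique with `k` vertices. -/
def HasClique {n r : ℕ} (k : ℕ) (x : Edge n r → Bool) : Prop :=
  ∃ S : Finset (Fin n), S.card = k ∧ ∀ e : Edge n r, e.1 ⊆ S → x e = true

/-- `H` contains a sunflower with at least `N` members: there are a set `Q ⊆ H` with at least `N`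
members and a set `Y` of vertices (the core) that is contained in all members of `Q` and contains all
intersections of two different members of `Q`. -/
def ContainsSunflower {n r : ℕ} (H : Set (Edge n r)) (N : ℝ) : Prop :=
  ∃ Q : Set (Edge n r), Q ⊆ H ∧ N ≤ Q.ncard ∧
    ∃ Y : Finset (Fin n), (∀ e ∈ Q, Y ⊆ e.1) ∧ ∀ e ∈ Q, ∀ e' ∈ Q, e ≠ e' → e.1 ∩ e'.1 ⊆ Y

/-- A circuit with the gates `0, ..., s - 1` whose inputs are the bits of the elements of `E`. Gate `i`
has `w i` inputs, namely `a i j`, each a bit (`0` or `1`) or an earlier gate; it computes a function
`op i` of real numbers, and its value on the input `x` is `val x i`. The circuit accepts if the value of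
gate `out` is at least `τ`. The function `op i` is nondecreasing and `w i ≤ 2`, except for the gates in
the set `further`, for which it may be any function of the truth values of `θ i j ≤ z j`, where `z j`
is the `j`-th input of the gate (NOT gates, or truth tables with any number of inputs). -/
structure RealCircuit (E : Type) where
  s : ℕ
  further : Finset (Fin s)
  w : Fin s → ℕ
  a : (i : Fin s) → Fin (w i) → E ⊕ Fin s
  op : (i : Fin s) → (Fin (w i) → ℝ) → ℝ
  θ : (i : Fin s) → Fin (w i) → ℝ
  val : (E → Bool) → Fin s → ℝ
  out : Fin s
  τ : ℝ
  earlier : ∀ i j m, a i j = Sum.inr m → m < i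
  mono : ∀ i ∉ further, w i ≤ 2 ∧ Monotone (op i)
  threshold : ∀ i ∈ further, ∀ z z' : Fin (w i) → ℝ,
    (∀ j, θ i j ≤ z j ↔ θ i j ≤ z' j) → op i z = op i z'
  spec : ∀ x i, val x i = op i (fun j =>
    Sum.elim (fun e => if x e = true then (1 : ℝ) else 0) (val x) (a i j))

/-- The circuit accepts the input `x`. -/
def RealCircuit.Accepts {E : Type} (C : RealCircuit E) (x : E → Bool) : Prop :=
  C.τ ≤ C.val x C.out

/-- The number of gates plus the number of inputs of the further gates. -/
def RealCircuit.size {E : Type} (C : RealCircuit E) : ℕ := C.s + ∑ i ∈ C.further, C.w i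

/-- The product of the numbers `w i + 1` for the further gates `i` (`1` if there are none, and `2 ^ t`
for `t` NOT gates). -/
def RealCircuit.freedom {E : Type} (C : RealCircuit E) : ℕ := ∏ i ∈ C.further, (C.w i + 1)

/-- The probability that the input `x` is accepted by a circuit that is chosen uniformly at random
from the family `C`. -/
noncomputable def acceptance {E R : Type} (C : R → RealCircuit E) (x : E → Bool) : ℝ :=
  (Nat.card {ρ : R // (C ρ).Accepts x} : ℝ) / Nat.card R

/-- The functions that are available after the functions of the list `L` have been computed: the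
members of `L`, the constants and the inputs. -/
def Available {E : Type} (L : List ((E → Bool) → Bool)) (f : (E → Bool) → Bool) : Prop :=
  f ∈ L ∨ (∃ c : Bool, f = fun _ => c) ∨ ∃ e : E, f = fun x => x e

/-- Boolean circuits (straight-line programs) with AND, OR and NOT gates of fan-in at most two, one
gate for each member of the list, in which the inputs of `H` are not negated: each NOT gate is applied
to a function that does not depend on the inputs of `H`. For `H = ∅` these are all Boolean circuits. -/
inductive BooleanCircuit {E : Type} (H : Set E) : List ((E → Bool) → Bool) → Prop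
  | nil : BooleanCircuit H []
  | and {L f g} (hL : BooleanCircuit H L) (hf : Available L f) (hg : Available L g) :
      BooleanCircuit H ((fun x => f x && g x) :: L)
  | or {L f g} (hL : BooleanCircuit H L) (hf : Available L f) (hg : Available L g) :
      BooleanCircuit H ((fun x => f x || g x) :: L)
  | not {L f} (hL : BooleanCircuit H L) (hf : Available L f)
      (hH : ∀ x x' : E → Bool, (∀ e ∉ H, x e = x' e) → f x = f x') :
      BooleanCircuit H ((fun x => !f x) :: L)

/-- Some Boolean circuit with at most `s` gates in which the inputs of `H` are not negated decides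
whether the input has the property `P`. -/
def Decides {E : Type} (H : Set E) (s : ℕ) (P : (E → Bool) → Prop) : Prop :=
  ∃ (L : List ((E → Bool) → Bool)) (f : (E → Bool) → Bool), BooleanCircuit H L ∧ L.length ≤ s ∧
    Available L f ∧ ∀ x, f x = true ↔ P x

/-- The circuit in the notation of the library. -/
noncomputable def toRC {E : Type} (C : RealCircuit E) : Pool.Agent.W969.MC.RC E :=
  ⟨C.s, C.further, C.w, C.a, C.op, C.θ, C.val, C.out, C.τ, C.earlier, C.mono, C.threshold, C.spec⟩

lemma toProgram {E : Type} {H : Set E} {L : List ((E → Bool) → Bool)} (h : BooleanCircuit H L) :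
    Pool.Agent.HM94.NI.Program H L := by
  induction h with
  | nil => exact .nil
  | and _ hf hg ih => exact .and ih hf hg
  | or _ hf hg ih => exact .or ih hf hg
  | not _ hf hH ih => exact .not ih hf hH

lemma ofProgram {E : Type} {H : Set E} {L : List ((E → Bool) → Bool)}
    (h : Pool.Agent.HM94.NI.Program H L) : BooleanCircuit H L := by
  induction h with
  | nil => exact .nil
  | and _ hf hg ih => exact .and ih hf hg
  | or _ hf hg ih => exact .or ih hf hg
  | not _ hf hH ih => exact .not ih hf hH

lemma yes_bridge {E R : Type} [Fintype R] [Nonempty R] (C : R → RealCircuit E)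
    {x : E → Bool} {β : ℝ} (h : β ≤ acceptance C x) :
    β * Fintype.card R ≤ ({ρ : R | (toRC (C ρ)).acc x}.ncard : ℝ) := by
  have hR : (0 : ℝ) < Fintype.card R := by exact_mod_cast Fintype.card_pos
  unfold acceptance at h
  rw [Nat.card_eq_fintype_card (α := R), le_div_iff₀ hR] at h
  refine h.trans (le_of_eq ?_)
  congr 1

lemma no_bridge {E R : Type} [Fintype R] [Nonempty R] (C : R → RealCircuit E)
    {x : E → Bool} {β : ℝ} (h : acceptance C x ≤ β) :
    ({ρ : R | (toRC (C ρ)).acc x}.ncard : ℝ) ≤ β * Fintype.card R := by
  have hR : (0 : ℝ) < Fintype.card R := by exact_mod_cast Fintype.card_pos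
  unfold acceptance at h
  rw [Nat.card_eq_fintype_card (α := R), div_le_iff₀ hR] at h
  refine le_trans (le_of_eq ?_) h
  congr 1

/-- The clique problem for `r`-uniform hypergraphs with `n` vertices (`r = 2`: graphs); `H` is a set
of inputs.

(1) For every `ε > 0` there are `δ > 0` and `l0` such that for all `n`, `k`, `l` with `l0 ≤ l ≤ k` and
`k + l ^ (2 + ε) ≤ n` and each `H` that contains a sunflower with at least `l ^ (2 + ε)` members, there
is an assignment `o` of values to the inputs outside of `H` such that the remaining function of the
inputs of `H` is hard: let `C` be a randomised circuit with the inputs `H` and with freedom at most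
`l ^ δ`, and `α` a number such that of all hypergraphs `x` that agree with `o` outside of `H`, those with
a clique of size `k` are accepted with probability at least `α + l ^ (-δ)`, and those without with
probability at most `α`. Then `C` has size at least `l ^ (δ l)`.

(2) For all `ε > 0` and `c`, all large `n`, all `k` from `(log n) ^ (1 + ε)` to `n - (log n) ^ (2 + ε)`,
and all `H` with at least `(log n) ^ (2 r + ε)` members, or containing a sunflower with at least
`(log n) ^ (2 + ε)` members: Boolean circuits in which the inputs of `H` are not negated and that decide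
whether there is a clique of size `k` have more than `n ^ c` gates.

(3) Conversely, if some Boolean circuit with `s` gates decides whether there is a clique of size `k`,
then so does a circuit with at most `2 ^ |H| (s + |H| + 1)` gates in which the inputs of `H` are not
negated. -/
theorem result (r : ℕ) (hr : 2 ≤ r) :
    (∀ ε : ℝ, 0 < ε → ∃ δ : ℝ, 0 < δ ∧ ∃ l0 : ℕ, ∀ n k l : ℕ, l0 ≤ l → l ≤ k →
      (k : ℝ) + (l : ℝ) ^ (2 + ε) ≤ n →
      ∀ H : Set (Edge n r), ContainsSunflower H ((l : ℝ) ^ (2 + ε)) →
      ∃ o : Edge n r → Bool,
      ∀ (R : Type) [Finite R] [Nonempty R] (C : R → RealCircuit ↥H) (α : ℝ),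
        (∀ ρ, ((C ρ).freedom : ℝ) ≤ (l : ℝ) ^ δ) →
        (∀ x : Edge n r → Bool, (∀ e ∉ H, x e = o e) → HasClique k x →
          α + (l : ℝ) ^ (-δ) ≤ acceptance C (fun e => x e.1)) →
        (∀ x : Edge n r → Bool, (∀ e ∉ H, x e = o e) → ¬ HasClique k x →
          acceptance C (fun e => x e.1) ≤ α) →
        ∃ ρ, (l : ℝ) ^ (δ * l) ≤ (C ρ).size) ∧
    (∀ ε : ℝ, 0 < ε → ∀ c : ℝ, ∃ n0 : ℕ, ∀ n k : ℕ, n0 ≤ n → (Real.log n) ^ (1 + ε) ≤ k →
      (k : ℝ) + (Real.log n) ^ (2 + ε) ≤ n →
      ∀ H : Set (Edge n r),
        ContainsSunflower H ((Real.log n) ^ (2 + ε)) ∨ (Real.log n) ^ (2 * (r : ℝ) + ε) ≤ H.ncard →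
        ∀ s : ℕ, Decides H s (HasClique k) → (n : ℝ) ^ c < s) ∧
    (∀ n k s : ℕ, Decides (∅ : Set (Edge n r)) s (HasClique k) →
      ∀ H : Set (Edge n r), Decides H (2 ^ H.ncard * (s + H.ncard + 1)) (HasClique k)) := by
  classical
  refine ⟨?_, ?_, ?_⟩
  · intro ε hε
    obtain ⟨δ, hδ, l0, h⟩ := Pool.Agent.HM94.NI.data_exists r hr ε hε
    refine ⟨δ, hδ, l0, ?_⟩
    intro n k l hl hlk hkn H hH
    obtain ⟨X⟩ := h n k l hl hlk hkn H hH
    refine ⟨X.out, ?_⟩
    intro R _ _ C α hfree hyes hno
    let _ : Fintype R := Fintype.ofFinite R
    exact X.rand hr R (fun ρ => toRC (C ρ)) α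
      (fun x hx hq => yes_bridge C (hyes x hx hq))
      (fun x hx hq => no_bridge C (hno x hx hq)) hfree
  · intro ε hε c
    obtain ⟨n0, h⟩ := Pool.Agent.HM94.NI.poly_large r hr ε hε c
    refine ⟨n0, ?_⟩
    rintro n k hn hk hkn H hH s ⟨L, f, h1, h2, h3, h4⟩
    exact h n k hn hk hkn H hH f s h4 ⟨L, toProgram h1, h2, h3⟩
  · rintro n k s ⟨L, f, h1, h2, h3, h4⟩ H
    have hmono : Monotone f := by
      intro x x' hxx
      rcases hfx : f x with _ | _
      · exact Bool.false_le _
      · have h5 := (h4 x).mp hfx
        obtain ⟨S, hS, h6⟩ := h5
        have h7 : f x' = true := (h4 x').mpr ⟨S, hS, fun e he => by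
          have h8 := hxx e
          rw [h6 e he] at h8
          exact top_le_iff.mp h8⟩
        rw [h7]
    obtain ⟨L', h5, h6, h7⟩ := Pool.Agent.HM94.NI.avoid (H := H) hmono ⟨L, toProgram h1, h2, h3⟩
    exact ⟨L', f, ofProgram h5, h6, h7, h4⟩

end Pool.Agent.Parked.NegatedInputs069684
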