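import Pool.Agent.HS38.PL.Corollary
import Pool.Agent.HS38.PL.Sub

/-!
# The singular locus of the permanental hypersurface has codimension at least `n + 2`

`K` is an algebraically closed field of characteristic zero (for instance `ℂ`), and
`mvPolynomialX (Fin p) (Fin q) K` is the generic `p × q` matrix `(x_ij)`.

1. For `1 ≤ r ≤ p` and `r < q` the ideal of all `r × r` subpermanents of the generic `p × q` matrix has
   height at least `p q / r`.
2. For `r = p < q` (maximal subpermanents) the height is exactly `q`.
3. For `n ≥ 2` the ideal of all partial derivatives of the `n × n` permanent, that is the ideal of the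
   singular locus of the hypersurface `per_n = 0`, has height at least `n + 2`
   (the known bounds are constants: `5`, von zur Gathen 1987, and `6`, Boralevi, Carlini, Michałek and
   Ventura; the trivial upper bound is `2 n`).
4. If `per_n = F (g_1, …, g_r)`, where `F` is any polynomial and every `g_i` is a form of degree between
   `1` and `n - 1`, then `r ≥ n + 2`. (For example the polynomials at a cut of a homogeneous circuit; for
   `F = ∑ y_k z_k` this says that `per_n` is not a sum of fewer than `(n + 2) / 2` products of forms of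
   smaller degree.)
5. If `per_n = ∑_{k < m} g_k h_k`, where `g_k` is a polynomial in the entries of some rows, `h_k` is a
   polynomial in the entries of the other rows, and both have no constant term, then `m ≥ n`
   (the rows may be divided in a different way for every `k`; the Laplace expansion has `m = n`).
-/

set_option autoImplicit false

namespace Pool.Agent.Parked.PermanentSingularLocus

open MvPolynomial Matrix

theorem result (K : Type) [Field K] [IsAlgClosed K] [CharZero K] :
    (∀ p q r : ℕ, 0 < r → r ≤ p → r < q →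
      ((p * q : ℕ) : ℕ∞) ≤ r * (Ideal.span (Set.range fun s : (Fin r ↪ Fin p) × (Fin r ↪ Fin q) =>
        ((mvPolynomialX (Fin p) (Fin q) K).submatrix s.1 s.2).permanent)).height) ∧
    (∀ p q : ℕ, 0 < p → p < q →
      (Ideal.span (Set.range fun s : (Fin p ↪ Fin p) × (Fin p ↪ Fin q) =>
        ((mvPolynomialX (Fin p) (Fin q) K).submatrix s.1 s.2).permanent)).height = q) ∧
    (∀ n : ℕ, 2 ≤ n →
      ((n + 2 : ℕ) : ℕ∞) ≤ (Ideal.span (Set.range fun x : Fin n × Fin n =>
        pderiv x (mvPolynomialX (Fin n) (Fin n) K).permanent)).height) ∧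
    (∀ n r : ℕ, 2 ≤ n → ∀ (g : Fin r → MvPolynomial (Fin n × Fin n) K) (d : Fin r → ℕ)
      (F : MvPolynomial (Fin r) K),
      (∀ i, (g i).IsHomogeneous (d i) ∧ 0 < d i ∧ d i < n) →
      aeval g F = (mvPolynomialX (Fin n) (Fin n) K).permanent → n + 2 ≤ r) ∧
    (∀ n m : ℕ, 0 < n → ∀ (I : Fin m → Finset (Fin n)) (g h : Fin m → MvPolynomial (Fin n × Fin n) K),
      (∀ k, (∀ x ∈ (g k).vars, x.1 ∈ I k) ∧ (∀ x ∈ (h k).vars, x.1 ∉ I k) ∧
        constantCoeff (g k) = 0 ∧ constantCoeff (h k) = 0) →
      ∑ k, g k * h k = (mvPolynomialX (Fin n) (Fin n) K).permanent → n ≤ m) := by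
  refine ⟨?_, ?_, ?_, ?_, ?_⟩
  · intro p q r hr hrp hrq
    exact Pool.Agent.HS38.PL.height_subp hr hrp hrq
  · intro p q hp hpq
    apply le_antisymm (Pool.Agent.HS38.PL.height_subp_le hp)
    have h1 : ((p * q : ℕ) : ℕ∞) ≤ p * (Pool.Agent.HS38.PL.subp K p q p).height :=
      Pool.Agent.HS38.PL.height_subp hp le_rfl hpq
    rcases eq_or_ne (Pool.Agent.HS38.PL.subp K p q p).height ⊤ with h | h
    · exact h ▸ le_top
    · obtain ⟨m, hm⟩ : ∃ m : ℕ, (Pool.Agent.HS38.PL.subp K p q p).height = m :=
        ⟨_, (ENat.natCast_toNat h).symm⟩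
      rw [hm] at h1
      have h2 : p * q ≤ p * m := by exact_mod_cast h1
      have h3 : q ≤ m := Nat.le_of_mul_le_mul_left h2 hp
      have h4 : ((q : ℕ) : ℕ∞) ≤ (m : ℕ∞) := by exact_mod_cast h3
      rw [← hm] at h4
      exact h4
  · intro n hn
    exact Pool.Agent.HS38.PL.height_jac hn
  · intro n r hn g d F hg hF
    exact Pool.Agent.HS38.PL.card_forms hn g d (fun i => (hg i).1) (fun i => (hg i).2.1)
      (fun i => (hg i).2.2) F hF
  · intro n m hn I g h hgh hsum
    exact Pool.Agent.HS38.PL.card_rows hn I g h (fun k => (hgh k).1) (fun k => (hgh k).2.1)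
      (fun k => (hgh k).2.2.1) (fun k => (hgh k).2.2.2) hsum

end Pool.Agent.Parked.PermanentSingularLocus
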