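import Pool.Agent.Helper11x.SW7.Main

/-!
# The seven worlds of `P ⊆ NP ⊆ PSPACE ⊆ EXP`: exact sizes and exact distances

`World a b c` is the set of the oracles `A` relative to which the inclusion `P ⊆ NP` is proper iff
`a = true`, the inclusion `NP ⊆ PSPACE` is proper iff `b = true`, and the inclusion
`PSPACE ⊆ EXP` is proper iff `c = true` (`Pool/Agent/Helper11x/SW7/Main.lean`). The pattern
`(false, false, false)` is excluded by the time hierarchy theorem; the theorem is about the other
seven patterns.

* `Null f X` (`Pool/Agent/H620R2/Gauge/Defs.lean`): the set `X` of oracles is a null set for the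
  gauge `f`: for every `δ > 0` there are finite sequences `σ` such that every oracle in `X`
  extends one of them and the sum of `2 ^ (f |σ| - |σ|)` is at most `δ`.
* `Close g O A` (`Pool/Agent/W900/CH/PLev.lean`): for all large `n`, the oracles `O` and `A`
  differ on at most `g n` strings of length at most `n`.

1. Each of the six patterns with at least one equality is realized by a set of oracles which is a
   null set for the gauge `f` if and only if `f N ≤ 2 ^ (log₂ N) ^ ε` for infinitely many `N`, for
   every `ε > 0`.
2. The same holds for the set of all oracles for which at least one of the inclusions is an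
   equality.
3. Let `g` be a function. If `g n ≤ 2 ^ n ^ ε` for infinitely many `n`, for every `ε > 0`, then
   for almost every oracle `O`, all three inclusions are proper relative to every oracle obtained
   from `O` by at most `g` changes. Otherwise every oracle `O` can be changed by at most `g`
   changes into an oracle that realizes any given one of the seven patterns.
-/

set_option autoImplicit false

namespace Pool.Agent.Parked.SevenWorlds

open Pool.Agent.H620R2.Gauge Pool.Agent.Helper11x.SW7 MeasureTheory Filter
open Pool.Agent.W900.CH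
open Pool.Agent.H628R3.RO (randomOracle)

theorem result :
    (∀ (f : ℕ → ℝ) (a b c : Bool), (a, b, c) ≠ (false, false, false) →
      (a, b, c) ≠ (true, true, true) →
      (Null f (World a b c) ↔
        ∀ ε : ℝ, 0 < ε → ∃ᶠ N : ℕ in atTop, f N ≤ 2 ^ (Real.logb 2 N) ^ ε)) ∧
    (∀ f : ℕ → ℝ, Null f (World true true true)ᶜ ↔
      ∀ ε : ℝ, 0 < ε → ∃ᶠ N : ℕ in atTop, f N ≤ 2 ^ (Real.logb 2 N) ^ ε) ∧
    ∀ g : ℕ → ℝ,
      ((∀ ε : ℝ, 0 < ε → ∃ᶠ n : ℕ in atTop, g n ≤ 2 ^ (n : ℝ) ^ ε) →
        ∀ᵐ O ∂randomOracle, ∀ A, Close g O A → A ∈ World true true true) ∧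
      ((¬ ∀ ε : ℝ, 0 < ε → ∃ᶠ n : ℕ in atTop, g n ≤ 2 ^ (n : ℝ) ^ ε) →
        ∀ (O : Oracle) (a b c : Bool), (a, b, c) ≠ (false, false, false) →
          ∃ A ∈ World a b c, Close g O A) := by
  refine ⟨fun f a b c h h' => null_world f a b c h h', null_exc_iff, fun g => ⟨fun hg => ?_,
    fun hg O a b c h => (reach_world a b c h).close hg O⟩⟩
  filter_upwards [ae_far_P (S := (World true true true)ᶜ) (fun f hf => null_exc hf) hg]
    with O hO A hA
  by_contra hcon
  exact hO A hA hcon

end Pool.Agent.Parked.SevenWorlds
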