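import Pool.Agent.H9x.CL.Few

/-!
# A stable continuous theory which does not have enough d-definable sets

There is a complete continuous theory `T` in a signature with one unary predicate which is stable
(no formula has the order property) with at most `κ` types over sets of at most `κ` elements for all
`κ ≥ 2 ^ ℵ₀`, such that in every model of `T` every set of elements which is d-definable over a set
`A` contains all or none of the elements outside `A`. In particular `T` does not have enough
d-definable sets.
-/

set_option autoImplicit false

namespace Pool.Agent.Results.MP_cc3859_lc.StableFewDefinableSets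

open Pool.Agent.H9x.CL

theorem result : ∃ (L : Sig) (T : Set (Fm L 0)), IsComplete T ∧ Stable T ∧ FewTypes T ∧
    (∀ M : Str L, Model T M → ∀ (A : Set M.car) (D : Set (Fin 1 → M.car)), DDef M A D →
      (∀ x : Fin 1 → M.car, x 0 ∉ A → x ∈ D) ∨ ∀ x : Fin 1 → M.car, x 0 ∉ A → x ∉ D) ∧
    ¬ Enough T :=
  ⟨L₀, T₀, complete_T₀, stable_T₀, few_T₀, fun M hM _ _ hD => dich ((model_iff M).1 hM) hD,
    not_enough⟩

end Pool.Agent.Results.MP_cc3859_lc.StableFewDefinableSets
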