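import Pool.Agent.H5Sym.BorderMain

/-!
# The permanent and approximative circuits that are invariant under a small abelian group

Let `B` disjoint blocks of four elements of `X` be given, with the Klein four-group acting regularly on
each of them; these generate an abelian group of order `4 ^ B`, which permutes the rows and columns of
the `X × X` matrices simultaneously.

(1) Over every field `k` of characteristic zero, a circuit over `k(ε)` with arbitrary symmetric gates
(in particular an arithmetic circuit with free constants of `k(ε)`) that is invariant under this group
and approximates the permanent, in the sense that it computes a polynomial `F` with coefficients defined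
at `ε = 0` whose specialization at `ε = 0` is the permanent, has exponentially many gates in `B`.

(2) The same for limits over the complex numbers.

(3) Every arithmetic circuit over `k(ε)` with `s` gates that approximates the permanent can be made
invariant under this group, at the cost of a factor `4 ^ B`.

So for `B / log |X| → ∞` there are no invariant approximative circuits of polynomial size for the
permanent, and for `B = O (log |X|)` their existence is equivalent to the existence of approximative
circuits of polynomial size, that is, to `VNP ⊆ border VP`.
-/

set_option autoImplicit false

namespace Pool.Agent.Parked.SymmetricBorderCircuits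

open Pool.Agent.H5Sym Equiv Filter Topology

universe u w

/-- **Theorem.** Let `e` be an embedding of `β × K4` into the finite set `X`, that is, `B = |β|` disjoint
blocks of four elements. The translations `(i, a) ↦ (i, a + v i)` of the blocks permute the rows and
the columns of the `X × X` matrices simultaneously.
(1) Let `k` be a field of characteristic zero and `C` a circuit with values in `k(ε)` whose gates compute
arbitrary functions of the multiset of the labelled values of their wires. If `C` is invariant under
these permutations and approximates the permanent, then it has at least `36 ^ (B / 216) / (B + 1) ^ 9`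
gates.
(2) Let `C t` be invariant circuits over the complex numbers (with arbitrary symmetric gates) whose
values tend to the permanent for every symmetric matrix with entries `0` and `1` and at most six ones
in each row. Then for all large `t` the circuit `C t` has at least `36 ^ (B / 216) / (B + 1) ^ 9` gates.
(3) For every arithmetic circuit `C` over `k(ε)` that approximates the permanent there is one that is
invariant under these permutations and has `4 ^ B * |C| + 3` gates. -/
theorem result :
    (∀ (k : Type u) [Field k] [CharZero k] (β X : Type) [Finite X] (e : β × K4 ↪ X)
      (C : Circuit.{0, u, w} (X × X) (RatFunc k)) [Finite C.Gate],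
      (∀ v : β → K4, C.Invariant (pairPerm ((blockShift v).viaEmbedding e))) →
      ApproximatesPermanent C →
      36 ^ (Nat.card β / 216) ≤ Nat.card C.Gate * (Nat.card β + 1) ^ 9) ∧
    (∀ (β X : Type) [Finite X] (e : β × K4 ↪ X) (C : ℕ → Circuit.{0, 0, w} (X × X) ℂ)
      [∀ t, Finite (C t).Gate],
      (∀ t, ∀ v : β → K4, (C t).Invariant (pairPerm ((blockShift v).viaEmbedding e))) →
      (∀ x : X × X → Bool, SymmetricSix x → Tendsto
        (fun t => (C t).eval (fun p => if x p then (1 : ℂ) else 0) (C t).out) atTop
        (𝓝 (per fun p => if x p then (1 : ℂ) else 0))) →
      ∀ᶠ t in atTop, 36 ^ (Nat.card β / 216) ≤ Nat.card (C t).Gate * (Nat.card β + 1) ^ 9) ∧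
    (∀ (k : Type u) [Field k] [CharZero k] (β X : Type) [Finite X] (e : β × K4 ↪ X)
      (C : Circuit.{0, u, 0} (X × X) (RatFunc k)) [Finite C.Gate],
      ArithmeticOver C → ApproximatesPermanent C →
      ∃ C' : Circuit.{0, u, 0} (X × X) (RatFunc k), ArithmeticOver C' ∧
        (∀ v : β → K4, C'.Invariant (pairPerm ((blockShift v).viaEmbedding e))) ∧
        ApproximatesPermanent C' ∧
        Nat.card C'.Gate = 4 ^ Nat.card β * Nat.card C.Gate + 3) :=
  ⟨fun _ _ _ _ _ _ e C _ h1 h2 => lowerBorder e C h1 h2,
    fun _ _ _ e C _ h1 h2 => lowerLimit e C h1 h2,
    fun _ _ _ _ _ _ e C _ h1 h2 => upperBorder e C h1 h2⟩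

end Pool.Agent.Parked.SymmetricBorderCircuits
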