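import Pool.Agent.H5Sym.NondetUp

/-!
# P/Poly versus NP/Poly for invariant circuits

The problem: does a graph with the vertices `X`, given by its adjacency matrix, have an independent set
of at least `k` vertices? We compare deterministic and nondeterministic circuits that are invariant under
permutations of the vertices. Let `B` disjoint blocks of four vertices be given, with the Klein
four-group acting regularly on each of them; these generate an abelian group `G` of order `4 ^ B`.

(1) There are nondeterministic circuits with `O(|X| ^ 2)` threshold gates that are invariant even under
all permutations of the vertices, which also permute the guess bits.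

(2) Deterministic circuits with arbitrary symmetric gates that are invariant under `G` need
exponentially many gates in `B`. The same is true for nondeterministic circuits with any number of
guess bits that are fixed by `G`.

(3) Every circuit with `s` gates can be made invariant under `G`, at the cost of a factor `4 ^ B`.

So for `B / log |X| → ∞` the class of the problems with invariant circuits of polynomial size is properly
contained in its nondeterministic counterpart, and for `B = O (log |X|)` this is equivalent to
`P/Poly ≠ NP/Poly` (the independent set problem is NP-complete).
-/

set_option autoImplicit false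

namespace Pool.Agent.Parked.SymmetricNondeterminism

open Pool.Agent.H5Sym Equiv

universe u w

/-- **Theorem.**
(1) For all finite `X` and all `k` there is a nondeterministic circuit with the guess bits `y i`,
`i ∈ X`, that decides whether a graph with the vertices `X` has an independent set of at least `k`
vertices. It has `2 |X| ^ 2 + |X| + 2` gates, which compute threshold functions or their negations, and
it is invariant under all permutations of `X`, acting on the matrix and on the guess bits.
(2) Let `e` be an embedding of `β × K4` into the finite set `X`, that is, `B = |β|` disjoint blocks of
four vertices, and let `B ≤ k ≤ |X| - 3 B`. The translations `(i, a) ↦ (i, a + v i)` of the blocks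
permute the vertices. Let `C` be a circuit, deterministic (`Y` empty) or nondeterministic with guess
bits `y t`, `t ∈ Y`, with values in any set `D`, whose gates compute arbitrary functions of the multiset
of the labelled values of their wires. Suppose that `C` is invariant under these permutations of the
vertices, which fix the guess bits, and decides whether a graph has an independent set of at least `k`
vertices. Then `C` has at least `36 ^ (B / 216) / (B + 1) ^ 9` gates.
(3) For every Boolean circuit `C` that decides whether a graph has an independent set of at least `k`
vertices there is a circuit that does so and is invariant under the translations of the blocks, with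
`4 ^ B * |C| + 1` gates, each of which computes the same function as a gate of `C` or the OR
function. -/
theorem result :
    (∀ (X : Type) [Finite X] (k : ℕ), ∃ C : Circuit.{0, 0, 0} ((X × X) ⊕ X) Bool,
      ThresholdGates C ∧ (∀ τ : Perm X, C.Invariant (sumCongr (pairPerm τ) τ)) ∧
      DecidesIndep C id (fun b => b = true) k ∧
      Nat.card C.Gate = 2 * Nat.card X ^ 2 + Nat.card X + 2) ∧
    (∀ (β X Y : Type) [Finite X] (e : β × K4 ↪ X) (k : ℕ), Nat.card β ≤ k →
      k + 3 * Nat.card β ≤ Nat.card X →
      ∀ (D : Type u) (C : Circuit.{0, u, w} ((X × X) ⊕ Y) D) [Finite C.Gate] (inp : Bool → D)
        (acc : D → Prop),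
        (∀ v : β → K4, C.Invariant
          (sumCongr (pairPerm ((blockShift v).viaEmbedding e)) (Equiv.refl Y))) →
        DecidesIndep C inp acc k →
        36 ^ (Nat.card β / 216) ≤ Nat.card C.Gate * (Nat.card β + 1) ^ 9) ∧
    (∀ (β X : Type) [Finite X] (e : β × K4 ↪ X) (k : ℕ) (C : Circuit.{0, 0, w} (X × X) Bool)
      [Finite C.Gate],
      (∀ x, IsGraph x → (C.eval x C.out = true ↔ HasIndep x k)) →
      ∃ C' : Circuit.{0, 0, w} (X × X) Bool,
        (∀ v : β → K4, C'.Invariant (pairPerm ((blockShift v).viaEmbedding e))) ∧
        (∀ x, IsGraph x → (C'.eval x C'.out = true ↔ HasIndep x k)) ∧
        (∀ g, C'.op g = orGate ∨ ∃ h, C'.op g = C.op h) ∧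
        Nat.card C'.Gate = 4 ^ Nat.card β * Nat.card C.Gate + 1) :=
  ⟨fun X _ k => upperND X k,
    fun _ _ _ _ e _ h1 h2 _ C _ inp acc h3 h4 => lowerND e h1 h2 C inp acc h3 h4,
    fun _ _ _ e k C _ h => upperSym e k C h⟩

end Pool.Agent.Parked.SymmetricNondeterminism
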